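import Pool.Agent.W289.CG.Stm

/-!
# Three equal values in every degree
-/

set_option autoImplicit false

namespace Pool.Agent.W460.CG

open Polynomial Pool.Agent.W289.CG Filter Topology

/-! ### The parameters -/

lemma eventually_notMem {l : Filter ℚ} (f : ℚ → ℚ) (x : ℚ) (hf : Tendsto f l (𝓝 x))
    (hne : ∀ᶠ u in l, f u ≠ x) (F : Finset ℚ) : ∀ᶠ u in l, f u ∉ F := by
  have h1 : ((F.erase x : Finset ℚ) : Set ℚ)ᶜ ∈ 𝓝 x := by
    apply (Finset.finite_toSet _).isClosed.isOpen_compl.mem_nhds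
    simp
  filter_upwards [hf h1, hne] with u h2 h3 h4
  apply h2
  rw [Finset.mem_coe, Finset.mem_erase]
  exact ⟨h3, h4⟩

lemma tendsto_div {N D : ℚ → ℚ} (hN : Continuous N) (hD : Continuous D) (h0 : D 0 ≠ 0) :
    Tendsto (fun u => N u / D u) (𝓝[>] (0 : ℚ)) (𝓝 (N 0 / D 0)) :=
  ((hN.continuousAt.div hD.continuousAt h0).tendsto).mono_left nhdsWithin_le_nhds

lemma par3 (F : Finset ℚ) (ε : ℚ) (hε : 0 < ε) : ∃ p q : ℚ, 0 < q ∧ q < p ∧ p < 1 ∧ 1 < p + q ∧
    p ^ 2 + p * q + q ^ 2 = 1 ∧ p * q * (p + q) < ε ∧ (p ∉ F ∧ q ∉ F ∧ p + q ∉ F) ∧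
    (-p ∉ F ∧ -q ∉ F ∧ -(p + q) ∉ F) := by
  classical
  let F' : Finset ℚ := F ∪ F.image (fun x => -x)
  have hF' : ∀ x, x ∉ F' → x ∉ F ∧ -x ∉ F := by
    intro x hx
    rw [Finset.mem_union, not_or] at hx
    refine ⟨hx.1, fun h => hx.2 ?_⟩
    rw [Finset.mem_image]
    exact ⟨-x, h, neg_neg x⟩
  have hpos : ∀ᶠ u in 𝓝[>] (0 : ℚ), 0 < u := eventually_mem_nhdsWithin
  have hlt : ∀ᶠ u in 𝓝[>] (0 : ℚ), u < 1 / 4 :=
    (eventually_lt_nhds (by norm_num : (0 : ℚ) < 1 / 4)).filter_mono nhdsWithin_le_nhds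
  have hP : Tendsto (fun u : ℚ => (1 - u ^ 2) / (1 + u + u ^ 2)) (𝓝[>] (0 : ℚ)) (𝓝 1) := by
    have := tendsto_div (N := fun u => 1 - u ^ 2) (D := fun u => 1 + u + u ^ 2) (by fun_prop)
      (by fun_prop) (by norm_num)
    simpa using this
  have hQ : Tendsto (fun u : ℚ => (u ^ 2 + 2 * u) / (1 + u + u ^ 2)) (𝓝[>] (0 : ℚ)) (𝓝 0) := by
    have := tendsto_div (N := fun u => u ^ 2 + 2 * u) (D := fun u => 1 + u + u ^ 2) (by fun_prop)
      (by fun_prop) (by norm_num)
    simpa using this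
  have hR : Tendsto (fun u : ℚ => (1 + 2 * u) / (1 + u + u ^ 2)) (𝓝[>] (0 : ℚ)) (𝓝 1) := by
    have := tendsto_div (N := fun u => 1 + 2 * u) (D := fun u => 1 + u + u ^ 2) (by fun_prop)
      (by fun_prop) (by norm_num)
    simpa using this
  have hK : Tendsto (fun u : ℚ => (1 - u ^ 2) / (1 + u + u ^ 2) *
      ((u ^ 2 + 2 * u) / (1 + u + u ^ 2)) * ((1 + 2 * u) / (1 + u + u ^ 2))) (𝓝[>] (0 : ℚ))
      (𝓝 0) := by
    have := (hP.mul hQ).mul hR
    simpa using this
  have eP := eventually_notMem _ 1 hP (by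
    filter_upwards [hpos] with u hu
    have hD : 0 < 1 + u + u ^ 2 := by positivity
    rw [Ne, div_eq_one_iff_eq hD.ne']
    intro h
    nlinarith) F'
  have eQ := eventually_notMem _ 0 hQ (by
    filter_upwards [hpos] with u hu
    positivity) F'
  have eR := eventually_notMem _ 1 hR (by
    filter_upwards [hpos, hlt] with u hu hu'
    have hD : 0 < 1 + u + u ^ 2 := by positivity
    rw [Ne, div_eq_one_iff_eq hD.ne']
    intro h
    nlinarith) F'
  have eK := hK.eventually (gt_mem_nhds hε)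
  obtain ⟨u, h1, h2, h3, h4, h5, h6⟩ := (hpos.and (hlt.and (eP.and (eQ.and (eR.and eK))))).exists
  have hD : 0 < 1 + u + u ^ 2 := by positivity
  have hsum : (1 - u ^ 2) / (1 + u + u ^ 2) + (u ^ 2 + 2 * u) / (1 + u + u ^ 2) =
      (1 + 2 * u) / (1 + u + u ^ 2) := by
    rw [← add_div]
    congr 1
    ring
  refine ⟨(1 - u ^ 2) / (1 + u + u ^ 2), (u ^ 2 + 2 * u) / (1 + u + u ^ 2), by positivity, ?_, ?_,
    ?_, ?_, ?_, ?_, ?_⟩
  · apply div_lt_div_of_pos_right _ hD
    nlinarith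
  · rw [div_lt_one hD]
    nlinarith
  · rw [hsum, one_lt_div hD]
    nlinarith
  · field_simp
    ring
  · rw [hsum]
    exact h6
  · rw [hsum]
    exact ⟨(hF' _ h3).1, (hF' _ h4).1, (hF' _ h5).1⟩
  · rw [hsum]
    exact ⟨(hF' _ h3).2, (hF' _ h4).2, (hF' _ h5).2⟩

lemma par4 (F : Finset ℚ) : ∃ p q : ℚ, 0 < p ∧ p < q ∧ q < 1 ∧
    p ^ 2 + q ^ 2 = 1 ∧ (p ∉ F ∧ q ∉ F) ∧ (-p ∉ F ∧ -q ∉ F) := by
  classical
  let F' : Finset ℚ := F ∪ F.image (fun x => -x)
  have hF' : ∀ x, x ∉ F' → x ∉ F ∧ -x ∉ F := by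
    intro x hx
    rw [Finset.mem_union, not_or] at hx
    refine ⟨hx.1, fun h => hx.2 ?_⟩
    rw [Finset.mem_image]
    exact ⟨-x, h, neg_neg x⟩
  have hpos : ∀ᶠ u in 𝓝[>] (0 : ℚ), 0 < u := eventually_mem_nhdsWithin
  have hlt : ∀ᶠ u in 𝓝[>] (0 : ℚ), u < 1 / 4 :=
    (eventually_lt_nhds (by norm_num : (0 : ℚ) < 1 / 4)).filter_mono nhdsWithin_le_nhds
  have hP : Tendsto (fun u : ℚ => (2 * u) / (1 + u ^ 2)) (𝓝[>] (0 : ℚ)) (𝓝 0) := by
    have := tendsto_div (N := fun u => 2 * u) (D := fun u => 1 + u ^ 2) (by fun_prop)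
      (by fun_prop) (by norm_num)
    simpa using this
  have hQ : Tendsto (fun u : ℚ => (1 - u ^ 2) / (1 + u ^ 2)) (𝓝[>] (0 : ℚ)) (𝓝 1) := by
    have := tendsto_div (N := fun u => 1 - u ^ 2) (D := fun u => 1 + u ^ 2) (by fun_prop)
      (by fun_prop) (by norm_num)
    simpa using this
  have eP := eventually_notMem _ 0 hP (by
    filter_upwards [hpos] with u hu
    positivity) F'
  have eQ := eventually_notMem _ 1 hQ (by
    filter_upwards [hpos] with u hu
    have hD : 0 < 1 + u ^ 2 := by positivity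
    rw [Ne, div_eq_one_iff_eq hD.ne']
    intro h
    nlinarith) F'
  obtain ⟨u, h1, h2, h3, h4⟩ := (hpos.and (hlt.and (eP.and eQ))).exists
  have hD : 0 < 1 + u ^ 2 := by positivity
  refine ⟨(2 * u) / (1 + u ^ 2), (1 - u ^ 2) / (1 + u ^ 2), by positivity, ?_, ?_, ?_, ?_, ?_⟩
  · apply div_lt_div_of_pos_right _ hD
    nlinarith
  · rw [div_lt_one hD]
    nlinarith
  · field_simp
    ring
  · exact ⟨(hF' _ h3).1, (hF' _ h4).1⟩
  · exact ⟨(hF' _ h3).2, (hF' _ h4).2⟩

/-! ### The blocks -/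

/-- the monic polynomial with roots `S` -/
noncomputable def PS (S : Finset ℚ) : ℚ[X] := ∏ s ∈ S, (X - C s)

lemma PS_union {S B : Finset ℚ} (h : Disjoint S B) : PS (S ∪ B) = PS S * PS B := by
  unfold PS
  exact Finset.prod_union h

lemma blockPos (F : Finset ℚ) : ∃ (B : Finset ℚ) (κ : ℚ), B.card = 3 ∧ Disjoint F B ∧ 0 < κ ∧
    PS B = X ^ 3 - X + C κ := by
  classical
  obtain ⟨p, q, h1, h2, h3, h4, h5, -, ⟨h6, h7, -⟩, ⟨-, -, h8⟩⟩ := par3 F 1 one_pos
  have n1 : p ∉ ({q, -(p + q)} : Finset ℚ) := by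
    rw [Finset.mem_insert, Finset.mem_singleton]
    rintro (h | h) <;> linarith
  have n2 : q ∉ ({-(p + q)} : Finset ℚ) := by
    rw [Finset.mem_singleton]
    intro h
    linarith
  refine ⟨{p, q, -(p + q)}, p * q * (p + q), ?_, ?_, ?_, ?_⟩
  · rw [Finset.card_insert_of_notMem n1, Finset.card_insert_of_notMem n2, Finset.card_singleton]
  · rw [Finset.disjoint_right]
    intro x hx
    rw [Finset.mem_insert, Finset.mem_insert, Finset.mem_singleton] at hx
    rcases hx with rfl | rfl | rfl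
    · exact h6
    · exact h7
    · exact h8
  · have : 0 < p := h1.trans h2
    positivity
  · unfold PS
    rw [Finset.prod_insert n1, Finset.prod_insert n2, Finset.prod_singleton]
    have h9 := congrArg (C : ℚ → ℚ[X]) h5
    simp only [map_add, map_mul, map_pow, map_one, map_neg] at h9 ⊢
    linear_combination -(X : ℚ[X]) * h9

lemma blockNeg (F : Finset ℚ) (ε : ℚ) (hε : 0 < ε) : ∃ (B : Finset ℚ) (κ : ℚ), B.card = 3 ∧
    Disjoint F B ∧ 0 < κ ∧ κ < ε ∧ PS B = X ^ 3 - X - C κ ∧ ∃ s ∈ B, 1 < s := by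
  classical
  obtain ⟨p, q, h1, h2, h3, h4, h5, h10, ⟨-, -, h8⟩, ⟨h6, h7, -⟩⟩ := par3 F ε hε
  have n1 : -p ∉ ({-q, p + q} : Finset ℚ) := by
    rw [Finset.mem_insert, Finset.mem_singleton]
    rintro (h | h) <;> linarith
  have n2 : -q ∉ ({p + q} : Finset ℚ) := by
    rw [Finset.mem_singleton]
    intro h
    linarith
  refine ⟨{-p, -q, p + q}, p * q * (p + q), ?_, ?_, ?_, h10, ?_, p + q, by simp, h4⟩
  · rw [Finset.card_insert_of_notMem n1, Finset.card_insert_of_notMem n2, Finset.card_singleton]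
  · rw [Finset.disjoint_right]
    intro x hx
    rw [Finset.mem_insert, Finset.mem_insert, Finset.mem_singleton] at hx
    rcases hx with rfl | rfl | rfl
    · exact h6
    · exact h7
    · exact h8
  · have : 0 < p := h1.trans h2
    positivity
  · unfold PS
    rw [Finset.prod_insert n1, Finset.prod_insert n2, Finset.prod_singleton]
    have h9 := congrArg (C : ℚ → ℚ[X]) h5
    simp only [map_add, map_mul, map_pow, map_one, map_neg] at h9 ⊢
    linear_combination -(X : ℚ[X]) * h9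

lemma block4 (F : Finset ℚ) : ∃ (B : Finset ℚ) (κ : ℚ), B.card = 4 ∧ Disjoint F B ∧ 0 < κ ∧
    PS B = X ^ 4 - X ^ 2 + C κ := by
  classical
  obtain ⟨p, q, h1, h2, h3, h4, ⟨h5, h6⟩, ⟨h7, h8⟩⟩ := par4 F
  have n1 : p ∉ ({-p, q, -q} : Finset ℚ) := by
    rw [Finset.mem_insert, Finset.mem_insert, Finset.mem_singleton]
    rintro (h | h | h) <;> linarith
  have n2 : -p ∉ ({q, -q} : Finset ℚ) := by
    rw [Finset.mem_insert, Finset.mem_singleton]
    rintro (h | h) <;> linarith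
  have n3 : q ∉ ({-q} : Finset ℚ) := by
    rw [Finset.mem_singleton]
    intro h
    linarith
  refine ⟨{p, -p, q, -q}, p ^ 2 * q ^ 2, ?_, ?_, ?_, ?_⟩
  · rw [Finset.card_insert_of_notMem n1, Finset.card_insert_of_notMem n2,
      Finset.card_insert_of_notMem n3, Finset.card_singleton]
  · rw [Finset.disjoint_right]
    intro x hx
    rw [Finset.mem_insert, Finset.mem_insert, Finset.mem_insert, Finset.mem_singleton] at hx
    rcases hx with rfl | rfl | rfl | rfl
    · exact h5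
    · exact h7
    · exact h6
    · exact h8
  · have : 0 < q := h1.trans h2
    positivity
  · unfold PS
    rw [Finset.prod_insert n1, Finset.prod_insert n2, Finset.prod_insert n3,
      Finset.prod_singleton]
    have h9 := congrArg (C : ℚ → ℚ[X]) h4
    simp only [map_add, map_mul, map_pow, map_one, map_neg] at h9 ⊢
    linear_combination -(X : ℚ[X]) ^ 2 * h9

/-- equal values at the three points -/
def Eq3 (S : Finset ℚ) (v : ℚ) : Prop :=
  (PS S).eval 0 = v ∧ (PS S).eval 1 = v ∧ (PS S).eval (-1) = v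

lemma Eq3.union {S B : Finset ℚ} {v w : ℚ} (h : Disjoint S B) (h1 : Eq3 S v) (h2 : Eq3 B w) :
    Eq3 (S ∪ B) (v * w) := by
  unfold Eq3
  rw [PS_union h, eval_mul, eval_mul, eval_mul, h1.1, h1.2.1, h1.2.2, h2.1, h2.2.1, h2.2.2]
  exact ⟨rfl, rfl, rfl⟩

lemma stage1 (a b : ℕ) : ∃ (S : Finset ℚ) (v : ℚ), S.card = 3 * a + 4 * b ∧ 0 < v ∧ Eq3 S v := by
  classical
  induction a with
  | zero =>
    induction b with
    | zero =>
      refine ⟨∅, 1, rfl, one_pos, ?_⟩
      unfold Eq3 PS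
      simp
    | succ b ih =>
      obtain ⟨S, v, h1, h2, h3⟩ := ih
      obtain ⟨B, κ, k1, k2, k3, k4⟩ := block4 S
      refine ⟨S ∪ B, v * κ, ?_, by positivity, h3.union k2 ?_⟩
      · rw [Finset.card_union_of_disjoint k2, h1, k1]
        ring
      · unfold Eq3
        rw [k4]
        simp
        norm_num
  | succ a ih =>
    obtain ⟨S, v, h1, h2, h3⟩ := ih
    obtain ⟨B, κ, k1, k2, k3, k4⟩ := blockPos S
    refine ⟨S ∪ B, v * κ, ?_, by positivity, h3.union k2 ?_⟩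
    · rw [Finset.card_union_of_disjoint k2, h1, k1]
      ring
    · unfold Eq3
      rw [k4]
      simp
      norm_num

lemma stage2 (a b : ℕ) : ∃ (S : Finset ℚ) (v : ℚ), S.card = 3 * a + 4 * b + 3 ∧ 0 < v ∧
    Eq3 S (-v) := by
  classical
  obtain ⟨S, v, h1, h2, h3⟩ := stage1 a b
  obtain ⟨B, κ, k1, k2, k3, -, k4, -⟩ := blockNeg S 1 one_pos
  refine ⟨S ∪ B, v * κ, ?_, by positivity, ?_⟩
  · rw [Finset.card_union_of_disjoint k2, h1, k1]
  · have h4 : Eq3 B (-κ) := by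
      unfold Eq3
      rw [k4]
      simp
      norm_num
    have h5 := h3.union k2 h4
    rwa [mul_neg] at h5

lemma stage3 (a b : ℕ) : ∃ (S : Finset ℚ) (v : ℚ), S.card = 3 * a + 4 * b + 6 ∧ 0 < v ∧
    Eq3 S v ∧ ((derivative (PS S)).eval 0 ≠ 0 ∧ (derivative (PS S)).eval 1 ≠ 0 ∧
      (derivative (PS S)).eval (-1) ≠ 0) ∧ ∃ s ∈ S, 1 < s := by
  classical
  obtain ⟨S, v, h1, h2, h3⟩ := stage2 a b
  set d : ℚ → ℚ := fun x => (derivative (PS S)).eval x with hd
  set M : ℚ := 1 + |d 0| + |d 1| + |d (-1)| with hM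
  have hM0 : 0 < M := by positivity
  obtain ⟨B, κ, k1, k2, k3, k5, k4, s, hs, hs1⟩ := blockNeg S (v / M) (by positivity)
  have h4 : Eq3 B (-κ) := by
    unfold Eq3
    rw [k4]
    simp
    norm_num
  have h5 := h3.union k2 h4
  rw [neg_mul_neg] at h5
  have hMκ : M * κ < v := by
    rw [lt_div_iff₀ hM0] at k5
    linarith
  have key : ∀ x e : ℚ, |d x| ≤ M → (PS S).eval x = -v → (PS B).eval x = -κ →
      (derivative (PS B)).eval x = e → 1 ≤ |e| → (derivative (PS (S ∪ B))).eval x ≠ 0 := by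
    intro x e g1 g2 g3 g4 g5 g6
    rw [PS_union k2, derivative_mul, eval_add, eval_mul, eval_mul, g2, g3, g4] at g6
    have g7 : d x * κ = -(v * e) := by
      change d x * -κ + -v * e = 0 at g6
      linarith
    have g8 : |d x| * κ = v * |e| := by
      calc |d x| * κ = |d x * κ| := by rw [abs_mul, abs_of_pos k3]
        _ = |-(v * e)| := by rw [g7]
        _ = v * |e| := by rw [abs_neg, abs_mul, abs_of_pos h2]
    have g9 : |d x| * κ ≤ M * κ := by gcongr
    have g10 : v * 1 ≤ v * |e| := by gcongr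
    linarith
  have hBd : derivative (PS B) = C 3 * X ^ 2 - 1 := by
    rw [k4, derivative_sub, derivative_sub, derivative_X_pow, derivative_X, derivative_C, sub_zero]
    norm_num
  refine ⟨S ∪ B, v * κ, ?_, by positivity, h5, ⟨?_, ?_, ?_⟩, s, Finset.mem_union_right _ hs, hs1⟩
  · rw [Finset.card_union_of_disjoint k2, h1, k1]
  · refine key 0 (-1) ?_ h3.1 h4.1 ?_ (by norm_num)
    · rw [hM]
      have := abs_nonneg (d 1)
      have := abs_nonneg (d (-1))
      linarith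
    · rw [hBd]
      simp
  · refine key 1 2 ?_ h3.2.1 h4.2.1 ?_ (by norm_num)
    · rw [hM]
      have := abs_nonneg (d 0)
      have := abs_nonneg (d (-1))
      linarith
    · rw [hBd]
      simp
      norm_num
  · refine key (-1) 2 ?_ h3.2.2 h4.2.2 ?_ (by norm_num)
    · rw [hM]
      have := abs_nonneg (d 1)
      have := abs_nonneg (d 0)
      linarith
    · rw [hBd]
      simp
      norm_num

lemma of_set (n : ℕ) (S : Finset ℚ) (v : ℚ) (hcard : S.card = n) (hv : 0 < v) (h3 : Eq3 S v)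
    (hd : (derivative (PS S)).eval 0 ≠ 0 ∧ (derivative (PS S)).eval 1 ≠ 0 ∧
      (derivative (PS S)).eval (-1) ≠ 0) (hlt : ∃ s ∈ S, 1 < s) : Nonempty (Dat n 3) := by
  classical
  let e : Fin n ≃ S := (S.equivFinOfCardEq hcard).symm
  let D : ℕ := ∏ t ∈ S, t.den
  have hD : 0 < D := Finset.prod_pos fun t _ => t.den_pos
  have hDQ : (0 : ℚ) < D := by exact_mod_cast hD
  have hz : ∀ i : Fin n, ∃ z : ℤ, (z : ℚ) = D * (e i : ℚ) := by
    intro i
    obtain ⟨m, hm⟩ : (e i : ℚ).den ∣ D := Finset.dvd_prod_of_mem _ (e i).2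
    refine ⟨m * (e i : ℚ).num, ?_⟩
    rw [hm]
    push_cast
    have h1 := Rat.num_div_den (e i : ℚ)
    have h2 : ((e i : ℚ).den : ℚ) ≠ 0 := by exact_mod_cast (e i : ℚ).den_ne_zero
    rw [div_eq_iff h2] at h1
    rw [h1]
    ring
  choose a ha using hz
  let x : Fin 3 → ℚ := ![-1, 0, 1]
  let b : Fin 3 → ℤ := ![-(D : ℤ), 0, (D : ℤ)]
  have hb : ∀ j, (b j : ℚ) = D * x j := by
    intro j
    fin_cases j <;> simp [b, x]
  have hprod : ∀ y : ℚ, ∏ i, (y - (e i : ℚ)) = (PS S).eval y := by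
    intro y
    unfold PS
    rw [eval_prod, Equiv.prod_comp e (fun s : S => y - (s : ℚ)),
      Finset.prod_coe_sort S (fun s => y - s)]
    exact Finset.prod_congr rfl fun s _ => by simp
  have hev : ∀ (z : ℤ) (y : ℚ), (z : ℚ) = D * y →
      (((pA a).eval z : ℤ) : ℚ) = (D : ℚ) ^ n * (PS S).eval y := by
    intro z y hzy
    unfold pA
    rw [eval_prod]
    simp only [eval_sub, eval_X, eval_C]
    push_cast
    rw [← hprod y]
    have : ∀ i, (z : ℚ) - (a i : ℚ) = D * (y - (e i : ℚ)) := by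
      intro i
      rw [hzy, ha]
      ring
    rw [Finset.prod_congr rfl fun i _ => this i, Finset.prod_mul_distrib, Finset.prod_const,
      Finset.card_univ, Fintype.card_fin]
  have hvx : ∀ j, (PS S).eval (x j) = v := by
    intro j
    fin_cases j
    · exact h3.2.2
    · exact h3.1
    · exact h3.2.1
  have hdx : ∀ j, (derivative (PS S)).eval (x j) ≠ 0 := by
    intro j
    fin_cases j
    · exact hd.2.2
    · exact hd.1
    · exact hd.2.1
  have hx1 : ∀ j, x j ≤ 1 := by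
    intro j
    fin_cases j <;> simp [x]
  have hxinj : Function.Injective x := by
    intro i j hij
    fin_cases i <;> fin_cases j <;> simp [x] at hij ⊢ <;> norm_num at hij
  have hcomp : ((pA a).map (Int.castRingHom ℚ)).comp (C (D : ℚ) * X) =
      C ((D : ℚ) ^ n) * PS S := by
    unfold pA PS
    rw [Polynomial.map_prod, prod_comp]
    have h1 : ∏ s ∈ S, (X - C s : ℚ[X]) = ∏ i, (X - C (e i : ℚ)) := by
      rw [Equiv.prod_comp e (fun s : S => (X - C (s : ℚ) : ℚ[X])),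
        Finset.prod_coe_sort S (fun s => (X - C s : ℚ[X]))]
    rw [h1]
    have h2 : ∀ i, ((X - C (a i)).map (Int.castRingHom ℚ)).comp (C (D : ℚ) * X) =
        C (D : ℚ) * (X - C (e i : ℚ)) := by
      intro i
      rw [Polynomial.map_sub, map_X, map_C, sub_comp, X_comp, C_comp]
      change C (D : ℚ) * X - C ((a i : ℤ) : ℚ) = _
      rw [ha, C_mul]
      ring
    rw [Finset.prod_congr rfl fun i _ => h2 i, Finset.prod_mul_distrib, Finset.prod_const,
      Finset.card_univ, Fintype.card_fin, C_pow]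
  refine ⟨{ a := a, b := b, c := (pA a).eval 0, ha := ?_, hb := ?_, hc := ?_, hab := ?_,
            hder := ?_, hlt := ?_ }⟩
  · intro i j hij
    apply e.injective
    apply Subtype.ext
    have h1 := ha i
    rw [hij, ha j] at h1
    exact (mul_left_cancel₀ hDQ.ne' h1).symm
  · intro i j hij
    apply hxinj
    have h1 := hb i
    rw [hij, hb j] at h1
    exact (mul_left_cancel₀ hDQ.ne' h1).symm
  · have h1 := hev 0 0 (by simp)
    rw [h3.1] at h1
    have h2 : (0 : ℚ) < (((pA a).eval 0 : ℤ) : ℚ) := by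
      rw [h1]
      positivity
    exact_mod_cast h2
  · intro j
    have h1 := hev (b j) (x j) (hb j)
    have h2 := hev 0 0 (by simp)
    rw [hvx j] at h1
    rw [h3.1, ← h1] at h2
    exact_mod_cast h2.symm
  · intro j h0
    apply hdx j
    have h1 := congrArg derivative hcomp
    rw [derivative_comp, derivative_C_mul, derivative_C_mul, derivative_X, mul_one] at h1
    have h2 := congrArg (eval (x j)) h1
    rw [eval_mul, eval_C, eval_comp, eval_mul, eval_C, eval_X, eval_mul, eval_C] at h2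
    have h4 : eval ((D : ℚ) * x j) (derivative ((pA a).map (Int.castRingHom ℚ))) = 0 := by
      rw [← hb j, derivative_map]
      have h5 : ((b j : ℤ) : ℚ) = Int.castRingHom ℚ (b j) := rfl
      rw [h5, eval_map, eval₂_hom, h0, map_zero]
    rw [h4, mul_zero] at h2
    have h5 : ((D : ℚ) ^ n) ≠ 0 := by positivity
    exact (mul_eq_zero.1 h2.symm).resolve_left h5
  · intro j
    obtain ⟨s, hs, hs1⟩ := hlt
    refine ⟨e.symm ⟨s, hs⟩, ?_⟩
    have h1 := ha (e.symm ⟨s, hs⟩)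
    rw [Equiv.apply_symm_apply] at h1
    have h2 : ((b j : ℤ) : ℚ) < (a (e.symm ⟨s, hs⟩) : ℤ) := by
      rw [h1, hb j]
      apply mul_lt_mul_of_pos_left _ hDQ
      exact (hx1 j).trans_lt hs1
    exact_mod_cast h2

theorem gen : TaskGen := by
  intro n hn
  obtain ⟨a, b, hab⟩ : ∃ a b : ℕ, n = 3 * a + 4 * b + 6 :=
    ⟨(n - 6 - 4 * (n % 3)) / 3, n % 3, by omega⟩
  obtain ⟨S, v, h1, h2, h3, h4, h5⟩ := stage3 a b
  exact of_set n S v (by rw [h1, hab]) h2 h3 h4 h5

end Pool.Agent.W460.CG
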